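import Mathlib
import Pool.Agent.X128.TasepTab

/-!
# Multispecies TASEP on a ring: the least probable arrangement need not be cyclically descending

For `n = 6`, `k = 2` and inverse rates `(16, 16, 16, 32, 1, 32)`, conditioned on the entries 1, 2
being at positions 1, 5, the arrangement `6534` of the large entries is less probable than every
cyclically descending arrangement.
-/

set_option autoImplicit false

namespace Pool.Agent.Results.MP_01b7fc_pr.DescendingFails

open Finset Pool.Agent.X128

/-- The jump rate from the word `w` to the word `w'` of the multispecies TASEP on the ring: for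
every position `p` whose cyclic left neighbour carries a larger entry, the entry `w p` swaps places
with this neighbour at rate `1 / t (w p)`. -/
noncomputable def rate {n : ℕ} [NeZero n] (t : Fin n → ℝ) (w w' : Equiv.Perm (Fin n)) : ℝ :=
  ∑ p : Fin n, if w p < w (p - 1) ∧ w' = w * Equiv.swap (p - 1) p then (t (w p))⁻¹ else 0

/-- `π` is a stationary distribution of the chain. -/
def IsStationary {n : ℕ} [NeZero n] (t : Fin n → ℝ) (π : Equiv.Perm (Fin n) → ℝ) : Prop :=
  (∀ w, 0 ≤ π w) ∧ ∑ w, π w = 1 ∧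
    ∀ w, ∑ w', π w' * rate t w' w = π w * ∑ w', rate t w w'

/-- The event that every small entry `i` (that is, `i.val < k`) is at position `e i`. -/
def event {n : ℕ} (k : ℕ) (e : Fin n → Fin n) : Finset (Equiv.Perm (Fin n)) :=
  Finset.univ.filter fun w => ∀ i : Fin n, i.val < k → w (e i) = i

/-- The arrangement of the large entries: the word `w` read from left to right without its small
entries. -/
def arrangement {n : ℕ} (k : ℕ) (w : Equiv.Perm (Fin n)) : List (Fin n) :=
  (List.ofFn fun p => w p).filter fun i => decide (k ≤ i.val)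

/-- The conditional probability of the arrangement `σ` given the event. -/
noncomputable def condProb {n : ℕ} (π : Equiv.Perm (Fin n) → ℝ) (k : ℕ) (e : Fin n → Fin n)
    (σ : List (Fin n)) : ℝ :=
  (∑ w ∈ (event k e).filter fun w => arrangement k w = σ, π w) / ∑ w ∈ event k e, π w

/-- The large entries in increasing order. -/
def large (n k : ℕ) : List (Fin n) := (List.finRange n).filter fun i => decide (k ≤ i.val)

/-- The assertion of the question for given data: the most probable arrangement can be chosen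
cyclically ascending and the least probable one cyclically descending. -/
def Assertion {n : ℕ} (π : Equiv.Perm (Fin n) → ℝ) (k : ℕ) (e : Fin n → Fin n) : Prop :=
  (∃ σ, σ ~r large n k ∧ ∀ τ, τ.Perm (large n k) → condProb π k e τ ≤ condProb π k e σ) ∧
  (∃ σ, σ ~r (large n k).reverse ∧
    ∀ τ, τ.Perm (large n k) → condProb π k e σ ≤ condProb π k e τ)

/-! ### Rewriting the balance equations -/

section general

variable {n : ℕ} [NeZero n] (t : Fin n → ℝ)

lemma outflow_eq (w : Equiv.Perm (Fin n)) :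
    ∑ w', rate t w w' = ∑ p : Fin n, if w p < w (p - 1) then (t (w p))⁻¹ else 0 := by
  unfold rate
  rw [Finset.sum_comm]
  refine Finset.sum_congr rfl fun p _ => ?_
  by_cases h : w p < w (p - 1)
  · simp [h]
  · simp [h]

lemma inflow_eq (π : Equiv.Perm (Fin n) → ℝ) (w : Equiv.Perm (Fin n)) :
    ∑ w', π w' * rate t w' w =
      ∑ p : Fin n, if w (p - 1) < w p then
        (t (w (p - 1)))⁻¹ * π (w * Equiv.swap (p - 1) p) else 0 := by
  unfold rate
  simp only [Finset.mul_sum]
  rw [Finset.sum_comm]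
  refine Finset.sum_congr rfl fun p _ => ?_
  have key : ∀ w' : Equiv.Perm (Fin n), (π w' *
      if w' p < w' (p - 1) ∧ w = w' * Equiv.swap (p - 1) p then (t (w' p))⁻¹ else 0) =
      if w' = w * Equiv.swap (p - 1) p then
        (if w (p - 1) < w p then (t (w (p - 1)))⁻¹ * π (w * Equiv.swap (p - 1) p) else 0)
      else 0 := by
    intro w'
    by_cases h : w' = w * Equiv.swap (p - 1) p
    · have h2 : w = w' * Equiv.swap (p - 1) p := by
        rw [h, mul_assoc, Equiv.swap_mul_self, mul_one]
      have h3 : w' p = w (p - 1) := by rw [h]; simp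
      have h4 : w' (p - 1) = w p := by rw [h]; simp
      rw [if_pos h, h3, h4]
      by_cases h5 : w (p - 1) < w p
      · rw [if_pos ⟨h5, h2⟩, if_pos h5, h, mul_comm]
      · rw [if_neg (fun hc => h5 hc.1), if_neg h5, mul_zero]
    · rw [if_neg h, if_neg, mul_zero]
      rintro ⟨-, h2⟩
      apply h
      rw [h2, mul_assoc, Equiv.swap_mul_self, mul_one]
  rw [Finset.sum_congr rfl (fun w' _ => key w'), Finset.sum_ite_eq' Finset.univ]
  simp

end general

/-! ### The example -/

/-- The inverse rates. -/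
def tt : Fin 6 → ℝ := ![16, 16, 16, 32, 1, 32]

/-- Entry 1 at position 1 and entry 2 at position 5 (counted from one). -/
def ee : Fin 6 → Fin 6 := ![0, 4, 0, 0, 0, 0]

/-- The weight of a word. -/
def W (w : Equiv.Perm (Fin 6)) : ℕ :=
  TasepTab.wt (w 0).val (w 1).val (w 2).val (w 3).val (w 4).val (w 5).val

lemma tt_inv (i : Fin 6) : (tt i)⁻¹ = (TasepTab.rr i.val : ℝ) / 32 := by
  fin_cases i <;> simp [tt, TasepTab.rr] <;> norm_num

lemma spec (P : ℕ → ℕ → ℕ → ℕ → ℕ → ℕ → Bool) (h : TasepTab.allB P = true)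
    (w : Equiv.Perm (Fin 6)) :
    P (w 0).val (w 1).val (w 2).val (w 3).val (w 4).val (w 5).val = true := by
  have hne : ∀ i j : Fin 6, i ≠ j → (w i).val ≠ (w j).val := by
    intro i j hij h
    exact hij (w.injective (Fin.ext h))
  apply TasepTab.allB_spec P h
  all_goals first
    | exact (w _).isLt
    | exact hne _ _ (by decide)

lemma blt_iff (a b : Fin 6) : Nat.blt a.val b.val = true ↔ a < b := by
  rw [Nat.blt_eq]
  exact Iff.rfl

lemma W_pos (w : Equiv.Perm (Fin 6)) : 0 < W w := by
  have h := spec _ TasepTab.all_chk w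
  unfold TasepTab.chk at h
  simp only [Bool.and_eq_true] at h
  have h1 := h.1
  rw [Nat.blt_eq] at h1
  exact h1

lemma sub_vals : ((0 : Fin 6) - 1 = 5) ∧ ((1 : Fin 6) - 1 = 0) ∧ ((2 : Fin 6) - 1 = 1) ∧
    ((3 : Fin 6) - 1 = 2) ∧ ((4 : Fin 6) - 1 = 3) ∧ ((5 : Fin 6) - 1 = 4) := by decide

lemma balance (w : Equiv.Perm (Fin 6)) :
    (∑ p : Fin 6, if w (p - 1) < w p then
      (tt (w (p - 1)))⁻¹ * (W (w * Equiv.swap (p - 1) p) : ℝ) else 0) =
    (W w : ℝ) * ∑ p : Fin 6, if w p < w (p - 1) then (tt (w p))⁻¹ else 0 := by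
  have h := spec _ TasepTab.all_chk w
  unfold TasepTab.chk at h
  simp only [Bool.and_eq_true] at h
  have h2 := (Nat.beq_eq).mp h.2.1
  have h3 : (TasepTab.inflow (w 0).val (w 1).val (w 2).val (w 3).val (w 4).val (w 5).val : ℝ) =
      (TasepTab.wt (w 0).val (w 1).val (w 2).val (w 3).val (w 4).val (w 5).val : ℝ) *
      (TasepTab.outrate (w 0).val (w 1).val (w 2).val (w 3).val (w 4).val (w 5).val : ℝ) := by
    exact_mod_cast h2
  unfold TasepTab.inflow TasepTab.outrate at h3
  simp only [blt_iff] at h3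
  push_cast at h3
  obtain ⟨s0, s1, s2, s3, s4, s5⟩ := sub_vals
  simp only [Fin.sum_univ_six, s0, s1, s2, s3, s4, s5, tt_inv]
  have q0 : W (w * Equiv.swap 5 0) =
      TasepTab.wt (w 5).val (w 1).val (w 2).val (w 3).val (w 4).val (w 0).val := rfl
  have q1 : W (w * Equiv.swap 0 1) =
      TasepTab.wt (w 1).val (w 0).val (w 2).val (w 3).val (w 4).val (w 5).val := rfl
  have q2 : W (w * Equiv.swap 1 2) =
      TasepTab.wt (w 0).val (w 2).val (w 1).val (w 3).val (w 4).val (w 5).val := rfl
  have q3 : W (w * Equiv.swap 2 3) =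
      TasepTab.wt (w 0).val (w 1).val (w 3).val (w 2).val (w 4).val (w 5).val := rfl
  have q4 : W (w * Equiv.swap 3 4) =
      TasepTab.wt (w 0).val (w 1).val (w 2).val (w 4).val (w 3).val (w 5).val := rfl
  have q5 : W (w * Equiv.swap 4 5) =
      TasepTab.wt (w 0).val (w 1).val (w 2).val (w 3).val (w 5).val (w 4).val := rfl
  have qw : W w = TasepTab.wt (w 0).val (w 1).val (w 2).val (w 3).val (w 4).val (w 5).val := rfl
  simp only [q0, q1, q2, q3, q4, q5, qw]
  have e : ∀ (c : Prop) [Decidable c] (x y : ℝ), (if c then x / 32 * y else 0) =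
      (if c then x * y else 0) / 32 := by
    intro c _ x y
    split_ifs <;> ring
  have e2 : ∀ (c : Prop) [Decidable c] (x : ℝ), (if c then x / 32 else 0) =
      (if c then x else 0) / 32 := by
    intro c _ x
    split_ifs <;> ring
  simp only [e, e2]
  have h4 := congrArg (fun z : ℝ => z / 32) h3
  linear_combination h4

/-- A nonnegative solution of the balance equations that vanishes somewhere vanishes. -/
lemma vanish (x : Equiv.Perm (Fin 6) → ℝ) (hx : ∀ w, 0 ≤ x w)
    (hb : ∀ w, ∑ p : Fin 6, (if w (p - 1) < w p then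
      (tt (w (p - 1)))⁻¹ * x (w * Equiv.swap (p - 1) p) else 0) =
      x w * ∑ p : Fin 6, if w p < w (p - 1) then (tt (w p))⁻¹ else 0)
    (w1 : Equiv.Perm (Fin 6)) (h1 : x w1 = 0) : ∀ w, x w = 0 := by
  have hpos : ∀ i : Fin 6, 0 < (tt i)⁻¹ := by
    intro i
    rw [tt_inv]
    fin_cases i <;> simp [TasepTab.rr]
  have hstep : ∀ w p, x w = 0 → w (p - 1) < w p → x (w * Equiv.swap (p - 1) p) = 0 := by
    intro w p h0 hp
    have h := hb w
    rw [h0, zero_mul] at h
    have h2 := (Finset.sum_eq_zero_iff_of_nonneg (fun q _ => by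
      split_ifs
      · exact mul_nonneg (hpos _).le (hx _)
      · exact le_refl _)).1 h p (Finset.mem_univ p)
    rw [if_pos hp] at h2
    exact (mul_eq_zero.1 h2).resolve_left (hpos _).ne'
  have hid : ∀ w : Equiv.Perm (Fin 6),
      TasepTab.rk (w 0).val (w 1).val (w 2).val (w 3).val (w 4).val (w 5).val = 0 → w = 1 := by
    intro w h
    have h2 := spec _ TasepTab.all_rkz w
    unfold TasepTab.rkz at h2
    rw [h] at h2
    simp only [Bool.or_eq_true, Bool.not_eq_true', Bool.and_eq_true, Nat.beq_eq] at h2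
    have h3 := h2.resolve_left (by decide)
    obtain ⟨a0, a1, a2, a3, a4, a5⟩ := h3
    ext i
    fin_cases i
    · exact a0
    · exact a1
    · exact a2
    · exact a3
    · exact a4
    · exact a5
  obtain ⟨s0, s1, s2, s3, s4, s5⟩ := sub_vals
  set dd : Equiv.Perm (Fin 6) → ℕ := fun w =>
    TasepTab.dd (w 0).val (w 1).val (w 2).val (w 3).val (w 4).val (w 5).val with hdd
  set de : Equiv.Perm (Fin 6) → ℕ := fun w =>
    TasepTab.de (w 0).val (w 1).val (w 2).val (w 3).val (w 4).val (w 5).val with hde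
  -- the moves which decrease the distances
  have hc1 : ∀ w, w ≠ 1 → ∃ p, w (p - 1) < w p ∧ dd (w * Equiv.swap (p - 1) p) < dd w := by
    intro w hw
    have h := spec _ TasepTab.all_chk w
    unfold TasepTab.chk at h
    simp only [Bool.and_eq_true, Bool.or_eq_true, Nat.beq_eq] at h
    have h2 := h.2.2.1.resolve_left (fun h => hw (hid w h))
    unfold TasepTab.c1 at h2
    simp only [Bool.and_eq_true, Bool.or_eq_true, Nat.blt_eq] at h2
    rcases h2 with ((((h2 | h2) | h2) | h2) | h2) | h2
    · exact ⟨0, h2⟩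
    · exact ⟨1, h2⟩
    · exact ⟨2, h2⟩
    · exact ⟨3, h2⟩
    · exact ⟨4, h2⟩
    · exact ⟨5, h2⟩
  have hc2 : ∀ w, w ≠ 1 → ∃ p, w p < w (p - 1) ∧ de (w * Equiv.swap (p - 1) p) < de w := by
    intro w hw
    have h := spec _ TasepTab.all_chk w
    unfold TasepTab.chk at h
    simp only [Bool.and_eq_true, Bool.or_eq_true, Nat.beq_eq] at h
    have h2 := h.2.2.2.resolve_left (fun h => hw (hid w h))
    unfold TasepTab.c2 at h2
    simp only [Bool.and_eq_true, Bool.or_eq_true, Nat.blt_eq] at h2
    rcases h2 with ((((h2 | h2) | h2) | h2) | h2) | h2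
    · exact ⟨0, h2⟩
    · exact ⟨1, h2⟩
    · exact ⟨2, h2⟩
    · exact ⟨3, h2⟩
    · exact ⟨4, h2⟩
    · exact ⟨5, h2⟩
  -- to the identity
  have hto : ∀ n w, dd w = n → x w = 0 → x 1 = 0 := by
    intro n
    induction n using Nat.strong_induction_on with
    | _ n ih =>
      intro w hn h0
      by_cases hw : w = 1
      · rw [← hw]; exact h0
      · obtain ⟨p, hp, hd⟩ := hc1 w hw
        exact ih _ (hn ▸ hd) _ rfl (hstep w p h0 hp)
  have hone := hto _ w1 rfl h1
  have hfrom : ∀ n w, de w = n → x w = 0 := by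
    intro n
    induction n using Nat.strong_induction_on with
    | _ n ih =>
      intro w hn
      by_cases hw : w = 1
      · rw [hw]; exact hone
      · obtain ⟨p, hp, hd⟩ := hc2 w hw
        have h0 := ih _ (hn ▸ hd) (w * Equiv.swap (p - 1) p) rfl
        have := hstep (w * Equiv.swap (p - 1) p) p h0 (by simpa using hp)
        rw [mul_assoc, Equiv.swap_mul_self, mul_one] at this
        exact this
  exact fun w => hfrom _ w rfl

/-- The normalising constant. -/
noncomputable def Z : ℝ := ∑ w : Equiv.Perm (Fin 6), (W w : ℝ)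

/-- The stationary distribution. -/
noncomputable def pi0 (w : Equiv.Perm (Fin 6)) : ℝ := (W w : ℝ) / Z

lemma Z_pos : 0 < Z := by
  unfold Z
  exact Finset.sum_pos (fun w _ => by exact_mod_cast W_pos w) ⟨1, Finset.mem_univ _⟩

lemma pi0_pos (w : Equiv.Perm (Fin 6)) : 0 < pi0 w :=
  div_pos (by exact_mod_cast W_pos w) Z_pos

lemma pi0_stationary : IsStationary tt pi0 := by
  refine ⟨fun w => (pi0_pos w).le, ?_, ?_⟩
  · unfold pi0
    rw [← Finset.sum_div]
    exact div_self Z_pos.ne'
  · intro w
    rw [inflow_eq, outflow_eq]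
    have h := balance w
    unfold pi0
    have e : ∀ p : Fin 6, (if w (p - 1) < w p then
        (tt (w (p - 1)))⁻¹ * ((W (w * Equiv.swap (p - 1) p) : ℝ) / Z) else 0) =
        (if w (p - 1) < w p then
          (tt (w (p - 1)))⁻¹ * (W (w * Equiv.swap (p - 1) p) : ℝ) else 0) / Z := by
      intro p
      split_ifs <;> ring
    rw [Finset.sum_congr rfl (fun p _ => e p), ← Finset.sum_div, h]
    ring

lemma unique (π : Equiv.Perm (Fin 6) → ℝ) (hπ : IsStationary tt π) : π = pi0 := by
  obtain ⟨hn, hs, hb⟩ := hπ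
  obtain ⟨w1, -, hw1⟩ := Finset.exists_min_image (Finset.univ : Finset (Equiv.Perm (Fin 6)))
    (fun w => π w / pi0 w) ⟨1, Finset.mem_univ _⟩
  set c := π w1 / pi0 w1 with hc
  have hge : ∀ w, 0 ≤ π w - c * pi0 w := by
    intro w
    have h := hw1 w (Finset.mem_univ w)
    rw [le_div_iff₀ (pi0_pos w)] at h
    linarith
  have hv := vanish (fun w => π w - c * pi0 w) hge (by
    intro w
    have h1 := hb w
    have h2 := pi0_stationary.2.2 w
    rw [inflow_eq, outflow_eq] at h1 h2
    have e : ∀ p : Fin 6, (if w (p - 1) < w p then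
        (tt (w (p - 1)))⁻¹ * (π (w * Equiv.swap (p - 1) p) -
          c * pi0 (w * Equiv.swap (p - 1) p)) else 0) =
        (if w (p - 1) < w p then (tt (w (p - 1)))⁻¹ * π (w * Equiv.swap (p - 1) p) else 0) -
        c * (if w (p - 1) < w p then
          (tt (w (p - 1)))⁻¹ * pi0 (w * Equiv.swap (p - 1) p) else 0) := by
      intro p
      split_ifs <;> ring
    rw [Finset.sum_congr rfl (fun p _ => e p), Finset.sum_sub_distrib, ← Finset.mul_sum, h1, h2]
    ring) w1 (by
    rw [hc, div_mul_cancel₀ _ (pi0_pos w1).ne', sub_self])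
  have hc1 : c = 1 := by
    have h3 : ∑ w, π w = c * ∑ w, pi0 w := by
      rw [Finset.mul_sum]
      exact Finset.sum_congr rfl fun w _ => sub_eq_zero.1 (hv w)
    rw [hs, pi0_stationary.2.1, mul_one] at h3
    exact h3.symm
  funext w
  have := hv w
  rw [hc1, one_mul] at this
  exact sub_eq_zero.1 this

/-! ### The conditional probabilities -/

lemma mem_event (w : Equiv.Perm (Fin 6)) : w ∈ event 2 ee ↔ w 0 = 0 ∧ w 4 = 1 := by
  unfold event
  simp only [Finset.mem_filter, Finset.mem_univ, true_and]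
  constructor
  · intro h
    exact ⟨h 0 (by decide), h 1 (by decide)⟩
  · rintro ⟨h0, h1⟩ i hi
    have : i = 0 ∨ i = 1 := by
      revert i; decide
    rcases this with rfl | rfl
    · exact h0
    · exact h1

lemma arr_eq (w : Equiv.Perm (Fin 6)) (h0 : w 0 = 0) (h4 : w 4 = 1) :
    arrangement 2 w = [w 1, w 2, w 3, w 5] := by
  have hbig : ∀ i : Fin 6, i ≠ 0 → i ≠ 4 → 2 ≤ (w i).val := by
    intro i hi0 hi4
    have a : w i ≠ 0 := by
      intro h
      exact hi0 (w.injective (by rw [h, h0]))
    have b : w i ≠ 1 := by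
      intro h
      exact hi4 (w.injective (by rw [h, h4]))
    have a' : (w i).val ≠ 0 := fun h => a (Fin.ext h)
    have b' : (w i).val ≠ 1 := fun h => b (Fin.ext h)
    omega
  unfold arrangement
  simp only [List.ofFn_succ, List.ofFn_zero]
  have f1 : decide (2 ≤ (w 0).val) = false := by rw [h0]; decide
  have f2 : decide (2 ≤ (w 1).val) = true := decide_eq_true (hbig 1 (by decide) (by decide))
  have f3 : decide (2 ≤ (w 2).val) = true := decide_eq_true (hbig 2 (by decide) (by decide))
  have f4 : decide (2 ≤ (w 3).val) = true := decide_eq_true (hbig 3 (by decide) (by decide))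
  have f5 : decide (2 ≤ (w 4).val) = false := by rw [h4]; decide
  have f6 : decide (2 ≤ (w 5).val) = true := decide_eq_true (hbig 5 (by decide) (by decide))
  have main : List.filter (fun i : Fin 6 => decide (2 ≤ i.val)) [w 0, w 1, w 2, w 3, w 4, w 5] =
      [w 1, w 2, w 3, w 5] := by
    simp only [List.filter, f1, f2, f3, f4, f5, f6]
  exact main

/-- The numerator of the conditional probability for an explicit word. -/
lemma num_eq (f : Fin 6 → Fin 6) (hf : Function.Injective f) (h0 : f 0 = 0) (h4 : f 4 = 1) :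
    ∑ w ∈ (event 2 ee).filter fun w => arrangement 2 w = [f 1, f 2, f 3, f 5], pi0 w =
      (TasepTab.wt (f 0).val (f 1).val (f 2).val (f 3).val (f 4).val (f 5).val : ℝ) / Z := by
  set w0 : Equiv.Perm (Fin 6) := Equiv.ofBijective f (Finite.injective_iff_bijective.1 hf) with hw0
  have hw : ∀ i, w0 i = f i := fun i => rfl
  have : (event 2 ee).filter (fun w => arrangement 2 w = [f 1, f 2, f 3, f 5]) = {w0} := by
    ext w
    simp only [Finset.mem_filter, Finset.mem_singleton, mem_event]
    constructor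
    · rintro ⟨⟨a, b⟩, c⟩
      rw [arr_eq w a b] at c
      simp only [List.cons.injEq, and_true] at c
      obtain ⟨c1, c2, c3, c5⟩ := c
      ext i
      rw [hw]
      fin_cases i
      · exact congrArg Fin.val (a.trans h0.symm)
      · exact congrArg Fin.val c1
      · exact congrArg Fin.val c2
      · exact congrArg Fin.val c3
      · exact congrArg Fin.val (b.trans h4.symm)
      · exact congrArg Fin.val c5
    · intro h
      subst h
      refine ⟨⟨?_, ?_⟩, ?_⟩
      · rw [hw, h0]
      · rw [hw, h4]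
      · rw [arr_eq _ (by rw [hw, h0]) (by rw [hw, h4])]
        rfl
  rw [this, Finset.sum_singleton]
  rfl

lemma event_pos : 0 < ∑ w ∈ event 2 ee, pi0 w := by
  set w0 : Equiv.Perm (Fin 6) := Equiv.ofBijective ![0, 2, 3, 4, 1, 5]
    (Finite.injective_iff_bijective.1 (by decide)) with hw0
  refine Finset.sum_pos (fun w _ => pi0_pos w) ⟨w0, ?_⟩
  rw [mem_event]
  exact ⟨rfl, rfl⟩

lemma cond_eq (f : Fin 6 → Fin 6) (hf : Function.Injective f) (h0 : f 0 = 0) (h4 : f 4 = 1)
    (m : ℕ) (hm : TasepTab.wt (f 0).val (f 1).val (f 2).val (f 3).val (f 4).val (f 5).val = m) :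
    condProb pi0 2 ee [f 1, f 2, f 3, f 5] = (m : ℝ) / Z / ∑ w ∈ event 2 ee, pi0 w := by
  unfold condProb
  rw [num_eq f hf h0 h4, hm]

lemma large_eq : large 6 2 = [2, 3, 4, 5] := by decide

/-- The cyclically descending arrangements. -/
lemma desc_cases (σ : List (Fin 6)) (h : σ ~r (large 6 2).reverse) :
    σ = [5, 4, 3, 2] ∨ σ = [4, 3, 2, 5] ∨ σ = [3, 2, 5, 4] ∨ σ = [2, 5, 4, 3] := by
  rw [large_eq] at h
  obtain ⟨n, hn, h2⟩ := List.isRotated_iff_mod.1 h.symm
  have h3 : n ≤ 4 := by simpa using hn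
  interval_cases n
  · left; rw [← h2]; decide
  · right; left; rw [← h2]; decide
  · right; right; left; rw [← h2]; decide
  · right; right; right; rw [← h2]; decide
  · left; rw [← h2]; decide

lemma small : condProb pi0 2 ee [5, 4, 2, 3] = (43 : ℕ) / Z / ∑ w ∈ event 2 ee, pi0 w :=
  cond_eq ![0, 5, 4, 2, 1, 3] (by decide) rfl rfl 43 (by decide +kernel)

lemma strict (σ : List (Fin 6)) (h : σ ~r (large 6 2).reverse) :
    condProb pi0 2 ee [5, 4, 2, 3] < condProb pi0 2 ee σ := by
  have key : ∀ m : ℕ, 43 < m → ((43 : ℕ) : ℝ) / Z / ∑ w ∈ event 2 ee, pi0 w <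
      (m : ℝ) / Z / ∑ w ∈ event 2 ee, pi0 w := by
    intro m hm
    have hm' : ((43 : ℕ) : ℝ) < m := by exact_mod_cast hm
    exact div_lt_div_of_pos_right (div_lt_div_of_pos_right hm' Z_pos) event_pos
  rw [small]
  rcases desc_cases σ h with rfl | rfl | rfl | rfl
  · have := cond_eq ![0, 5, 4, 3, 1, 2] (by decide) rfl rfl 56 (by decide +kernel)
    refine lt_of_lt_of_eq (key 56 (by norm_num)) this.symm
  · have := cond_eq ![0, 4, 3, 2, 1, 5] (by decide) rfl rfl 78 (by decide +kernel)
    refine lt_of_lt_of_eq (key 78 (by norm_num)) this.symm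
  · have := cond_eq ![0, 3, 2, 5, 1, 4] (by decide) rfl rfl 549 (by decide +kernel)
    refine lt_of_lt_of_eq (key 549 (by norm_num)) this.symm
  · have := cond_eq ![0, 2, 5, 4, 1, 3] (by decide) rfl rfl 100 (by decide +kernel)
    refine lt_of_lt_of_eq (key 100 (by norm_num)) this.symm

/-- **Negative answer.**  For `n = 6`, `k = 2`, inverse rates `(16, 16, 16, 32, 1, 32)` and the
event that the entries 1, 2 are at positions 1, 5, the chain has exactly one stationary
distribution, and for it the arrangement `6534` (here `[5, 4, 2, 3]`, entries counted from zero) is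
strictly less probable than every cyclically descending arrangement.  Hence the asserted property
fails. -/
theorem result :
    (∀ i, 0 < (![16, 16, 16, 32, 1, 32] : Fin 6 → ℝ) i) ∧
    (∃! π : Equiv.Perm (Fin 6) → ℝ, IsStationary ![16, 16, 16, 32, 1, 32] π) ∧
    (∀ π : Equiv.Perm (Fin 6) → ℝ, IsStationary ![16, 16, 16, 32, 1, 32] π →
      ([5, 4, 2, 3] : List (Fin 6)).Perm (large 6 2) ∧
      (∀ σ : List (Fin 6), σ ~r (large 6 2).reverse →
        condProb π 2 ![0, 4, 0, 0, 0, 0] [5, 4, 2, 3] < condProb π 2 ![0, 4, 0, 0, 0, 0] σ) ∧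
      ¬ Assertion π 2 ![0, 4, 0, 0, 0, 0]) := by
  refine ⟨?_, ⟨pi0, pi0_stationary, fun π hπ => unique π hπ⟩, ?_⟩
  · intro i
    fin_cases i <;> simp
  · intro π hπ
    have hπ0 : π = pi0 := unique π hπ
    subst hπ0
    have hperm : ([5, 4, 2, 3] : List (Fin 6)).Perm (large 6 2) := by
      rw [large_eq]; decide
    refine ⟨hperm, fun σ hσ => strict σ hσ, ?_⟩
    rintro ⟨-, σ, hσ, hmin⟩
    exact absurd (hmin _ hperm) (not_le.2 (strict σ hσ))

end Pool.Agent.Results.MP_01b7fc_pr.DescendingFails
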